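import Mathlib

/-!
# Products of modified Bessel functions as entire functions of `v + 1/v`
-/

namespace Pool.Agent.V1146.McKay

open Finset Filter Topology MeasureTheory Set

noncomputable section

/-- the coefficient `1 / (m! Γ(m + μ + 1))` -/
def cf (μ : ℝ) (m : ℕ) : ℝ := 1 / ((m.factorial : ℝ) * Real.Gamma (m + μ + 1))

lemma cf_pos {μ : ℝ} (hμ : -1 < μ) (m : ℕ) : 0 < cf μ m := by
  unfold cf
  have h1 : 0 < Real.Gamma (m + μ + 1) :=
    Real.Gamma_pos_of_pos (by have : (0 : ℝ) ≤ m := m.cast_nonneg; linarith)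
  have h2 : (0 : ℝ) < m.factorial := by exact_mod_cast m.factorial_pos
  positivity

lemma gamma_ge {μ : ℝ} (hμ : -1 < μ) (m : ℕ) :
    Real.Gamma (μ + 2) ≤ Real.Gamma ((m + 1 : ℕ) + μ + 1) := by
  induction m with
  | zero => apply le_of_eq; congr 1; push_cast; ring
  | succ m ih =>
    refine ih.trans ?_
    have h0 : (0 : ℝ) ≤ m := m.cast_nonneg
    have hpos : (0 : ℝ) < (m + 1 : ℕ) + μ + 1 := by push_cast; linarith
    have e : ((m + 1 + 1 : ℕ) : ℝ) + μ + 1 = ((m + 1 : ℕ) + μ + 1) + 1 := by push_cast; ring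
    rw [e, Real.Gamma_add_one hpos.ne']
    have h1 : 1 ≤ ((m + 1 : ℕ) : ℝ) + μ + 1 := by push_cast; linarith
    have h2 := Real.Gamma_pos_of_pos hpos
    nlinarith

lemma cf_le {μ : ℝ} (hμ : -1 < μ) (m : ℕ) :
    cf μ m ≤ (1 / Real.Gamma (μ + 1) + 1 / Real.Gamma (μ + 2)) / (m.factorial : ℝ) := by
  have g1 : 0 < Real.Gamma (μ + 1) := Real.Gamma_pos_of_pos (by linarith)
  have g2 : 0 < Real.Gamma (μ + 2) := Real.Gamma_pos_of_pos (by linarith)
  have h2 : (0 : ℝ) < m.factorial := by exact_mod_cast m.factorial_pos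
  have key : 1 / Real.Gamma (m + μ + 1) ≤ 1 / Real.Gamma (μ + 1) + 1 / Real.Gamma (μ + 2) := by
    rcases m with _ | m
    · have : 0 < 1 / Real.Gamma (μ + 2) := by positivity
      simp only [CharP.cast_eq_zero, zero_add]
      linarith
    · have h := gamma_ge hμ m
      have : 1 / Real.Gamma ((m + 1 : ℕ) + μ + 1) ≤ 1 / Real.Gamma (μ + 2) :=
        one_div_le_one_div_of_le g2 h
      have h3 : 0 < 1 / Real.Gamma (μ + 1) := by positivity
      linarith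
  unfold cf
  rw [one_div, mul_inv, div_eq_mul_inv, mul_comm]
  refine mul_le_mul_of_nonneg_right ?_ (by positivity)
  simpa [one_div] using key

lemma summable_cf {μ : ℝ} (hμ : -1 < μ) {Q : ℝ} (hQ : 0 ≤ Q) :
    Summable (fun m : ℕ => cf μ m * Q ^ m) := by
  refine Summable.of_nonneg_of_le (fun m => mul_nonneg (cf_pos hμ m).le (by positivity))
    (fun m => mul_le_mul_of_nonneg_right (cf_le hμ m) (by positivity)) ?_
  have := (Real.summable_pow_div_factorial Q).mul_left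
    (1 / Real.Gamma (μ + 1) + 1 / Real.Gamma (μ + 2))
  refine this.congr fun m => ?_
  ring

/-- `∑ c_m z^m` -/
def Hc (μ : ℝ) (z : ℂ) : ℂ := ∑' m : ℕ, (cf μ m : ℂ) * z ^ m

/-- real version -/
def Hr (μ : ℝ) (x : ℝ) : ℝ := ∑' m : ℕ, cf μ m * x ^ m

lemma Hr_cast (μ : ℝ) (x : ℝ) : ((Hr μ x : ℝ) : ℂ) = Hc μ x := by
  unfold Hr Hc
  rw [Complex.ofReal_tsum]
  refine tsum_congr fun m => ?_
  push_cast
  ring

lemma summable_norm_cf {μ : ℝ} (hμ : -1 < μ) (z : ℂ) :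
    Summable (fun m : ℕ => ‖(cf μ m : ℂ) * z ^ m‖) := by
  refine (summable_cf hμ (norm_nonneg z)).congr fun m => ?_
  rw [norm_mul, norm_pow, Complex.norm_real, Real.norm_of_nonneg (cf_pos hμ m).le]

lemma summable_abs_cf {μ : ℝ} (hμ : -1 < μ) (x : ℝ) :
    Summable (fun m : ℕ => |cf μ m * x ^ m|) := by
  refine (summable_cf hμ (abs_nonneg x)).congr fun m => ?_
  rw [abs_mul, abs_pow, abs_of_pos (cf_pos hμ m)]

lemma Hr_pos {μ : ℝ} (hμ : -1 < μ) {x : ℝ} (hx : 0 ≤ x) : 0 < Hr μ x := by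
  unfold Hr
  refine (summable_cf hμ hx).tsum_pos (fun m => mul_nonneg (cf_pos hμ m).le (by positivity)) 0 ?_
  simpa using cf_pos hμ 0

lemma Hr_continuous {μ : ℝ} (hμ : -1 < μ) : Continuous (Hr μ) := by
  rw [continuous_iff_continuousAt]
  intro x
  have hon : ContinuousOn (Hr μ) (Metric.ball 0 (|x| + 1)) := by
    unfold Hr
    refine continuousOn_tsum (u := fun m => cf μ m * (|x| + 1) ^ m)
      (fun m => by fun_prop) (summable_cf hμ (by positivity)) ?_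
    intro m y hy
    rw [Real.norm_eq_abs, abs_mul, abs_pow, abs_of_pos (cf_pos hμ m)]
    refine mul_le_mul_of_nonneg_left ?_ (cf_pos hμ m).le
    refine pow_le_pow_left₀ (abs_nonneg y) ?_ m
    have : |y| < |x| + 1 := by simpa using hy
    exact this.le
  exact hon.continuousAt (Metric.isOpen_ball.mem_nhds (by simp))

/-- the polynomials with `P k (x + 1/x) = x ^ k + x ^ (-k)` -/
def P : ℕ → ℂ → ℂ
  | 0, _ => 2
  | 1, s => s
  | (k + 2), s => s * P (k + 1) s - P k s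

lemma P_eval {x : ℂ} (hx : x ≠ 0) : ∀ k : ℕ, P k (x + x⁻¹) = x ^ k + (x⁻¹) ^ k
  | 0 => by simp [P]; norm_num
  | 1 => by simp [P]
  | (k + 2) => by
    rw [P, P_eval hx (k + 1), P_eval hx k]
    have : x * x⁻¹ = 1 := mul_inv_cancel₀ hx
    have h2 : x ^ (k + 1) = x ^ k * x := pow_succ _ _
    have h3 : (x⁻¹) ^ (k + 1) = (x⁻¹) ^ k * x⁻¹ := pow_succ _ _
    have h4 : x ^ (k + 2) = x ^ k * x * x := by ring
    have h5 : (x⁻¹) ^ (k + 2) = (x⁻¹) ^ k * x⁻¹ * x⁻¹ := by ring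
    rw [h2, h3, h4, h5]
    linear_combination (x ^ k + x⁻¹ ^ k) * this

lemma P_bound (s : ℂ) : ∀ k : ℕ, ‖P k s‖ ≤ 2 * (1 + ‖s‖) ^ k
  | 0 => by simp [P]
  | 1 => by
    have := norm_nonneg s
    simp only [P, pow_one]
    linarith
  | (k + 2) => by
    rw [P]
    have h1 := P_bound s (k + 1)
    have h0 := P_bound s k
    have hs := norm_nonneg s
    have hA : (0 : ℝ) ≤ (1 + ‖s‖) ^ k := by positivity
    calc ‖s * P (k + 1) s - P k s‖ ≤ ‖s‖ * ‖P (k + 1) s‖ + ‖P k s‖ := by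
          refine (norm_sub_le _ _).trans ?_
          rw [norm_mul]
      _ ≤ ‖s‖ * (2 * (1 + ‖s‖) ^ (k + 1)) + 2 * (1 + ‖s‖) ^ k := by gcongr
      _ = 2 * (1 + ‖s‖) ^ k * (‖s‖ * (1 + ‖s‖) + 1) := by ring
      _ ≤ 2 * (1 + ‖s‖) ^ k * ((1 + ‖s‖) ^ 2) := by
          gcongr
          nlinarith
      _ = 2 * (1 + ‖s‖) ^ (k + 2) := by ring

lemma P_diff : ∀ k : ℕ, Differentiable ℂ (P k)
  | 0 => by
    have : P 0 = fun _ => (2 : ℂ) := by funext s; simp [P]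
    rw [this]; fun_prop
  | 1 => by
    have : P 1 = fun s => s := by funext s; simp [P]
    rw [this]; fun_prop
  | (k + 2) => by
    have : P (k + 2) = fun s => s * P (k + 1) s - P k s := by funext s; rw [P]
    rw [this]
    have h1 := P_diff (k + 1)
    have h0 := P_diff k
    fun_prop

/-- the general term of the double series -/
def T (μ q : ℝ) (p : ℕ × ℕ) (s : ℂ) : ℂ :=
  (cf μ p.1 : ℂ) * (cf μ p.2 : ℂ) * (q : ℂ) ^ (p.1 + p.2) * P ((p.1 - p.2) + (p.2 - p.1)) s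

/-- the entire function with `W (x + 1/x) = H (q x) H (q / x)` -/
def W (μ q : ℝ) (s : ℂ) : ℂ := (1 / 2) * ∑' p : ℕ × ℕ, T μ q p s

lemma T_bound {μ q R : ℝ} (hμ : -1 < μ) (hq : 0 ≤ q) {s : ℂ} (hs : ‖s‖ ≤ R) (p : ℕ × ℕ) :
    ‖T μ q p s‖ ≤ 2 * ((cf μ p.1 * (q * (1 + R)) ^ p.1) * (cf μ p.2 * (q * (1 + R)) ^ p.2)) := by
  obtain ⟨m, n⟩ := p
  have hR : 0 ≤ R := (norm_nonneg s).trans hs
  unfold T
  simp only [norm_mul, norm_pow, Complex.norm_real]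
  rw [Real.norm_of_nonneg (cf_pos hμ m).le, Real.norm_of_nonneg (cf_pos hμ n).le,
    Real.norm_of_nonneg hq]
  have h1 := P_bound s ((m - n) + (n - m))
  have h2 : (1 + ‖s‖) ^ ((m - n) + (n - m)) ≤ (1 + R) ^ (m + n) := by
    calc (1 + ‖s‖) ^ ((m - n) + (n - m)) ≤ (1 + R) ^ ((m - n) + (n - m)) := by
          gcongr
      _ ≤ (1 + R) ^ (m + n) := by
          apply pow_le_pow_right₀ (by linarith)
          omega
  have hc : 0 ≤ cf μ m * cf μ n * q ^ (m + n) := by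
    have := (cf_pos hμ m).le
    have := (cf_pos hμ n).le
    positivity
  calc cf μ m * cf μ n * q ^ (m + n) * ‖P ((m - n) + (n - m)) s‖
      ≤ cf μ m * cf μ n * q ^ (m + n) * (2 * (1 + R) ^ (m + n)) := by
        refine mul_le_mul_of_nonneg_left ?_ hc
        linarith
    _ = _ := by
        rw [mul_pow, mul_pow, pow_add, pow_add]; ring

lemma summable_bound {μ Q : ℝ} (hμ : -1 < μ) (hQ : 0 ≤ Q) :
    Summable (fun p : ℕ × ℕ => 2 * ((cf μ p.1 * Q ^ p.1) * (cf μ p.2 * Q ^ p.2))) := by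
  refine Summable.mul_left 2 ?_
  exact (summable_cf hμ hQ).mul_of_nonneg (summable_cf hμ hQ)
    (fun m => mul_nonneg (cf_pos hμ m).le (by positivity))
    (fun m => mul_nonneg (cf_pos hμ m).le (by positivity))

lemma W_diff {μ q : ℝ} (hμ : -1 < μ) (hq : 0 ≤ q) : Differentiable ℂ (W μ q) := by
  intro s
  have hon : DifferentiableOn ℂ (fun s => ∑' p : ℕ × ℕ, T μ q p s)
      (Metric.ball 0 (‖s‖ + 1)) := by
    refine Complex.differentiableOn_tsum_of_summable_norm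
      (summable_bound (Q := q * (1 + (‖s‖ + 1))) hμ (by positivity)) ?_ Metric.isOpen_ball ?_
    · intro p
      unfold T
      have := (P_diff ((p.1 - p.2) + (p.2 - p.1))).differentiableOn
        (s := Metric.ball (0 : ℂ) (‖s‖ + 1))
      fun_prop
    · intro p w hw
      have : ‖w‖ < ‖s‖ + 1 := by simpa using hw
      exact T_bound hμ hq this.le p
  have h1 := hon.differentiableAt (Metric.isOpen_ball.mem_nhds (by simp : s ∈ _))
  unfold W
  exact h1.const_mul _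

lemma W_eval {μ q : ℝ} (hμ : -1 < μ) (hq : 0 ≤ q) {x : ℂ} (hx : x ≠ 0) :
    W μ q (x + x⁻¹) = Hc μ (q * x) * Hc μ (q * x⁻¹) := by
  have e1 : Hc μ (q * x) * Hc μ (q * x⁻¹) = ∑' p : ℕ × ℕ,
      ((cf μ p.1 : ℂ) * ((q : ℂ) * x) ^ p.1) * ((cf μ p.2 : ℂ) * ((q : ℂ) * x⁻¹) ^ p.2) :=
    tsum_mul_tsum_of_summable_norm (f := fun m : ℕ => (cf μ m : ℂ) * ((q : ℂ) * x) ^ m)
      (g := fun m : ℕ => (cf μ m : ℂ) * ((q : ℂ) * x⁻¹) ^ m)
      (summable_norm_cf hμ ((q : ℂ) * x)) (summable_norm_cf hμ ((q : ℂ) * x⁻¹))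
  have s1 : Summable (fun p : ℕ × ℕ =>
      ((cf μ p.1 : ℂ) * ((q : ℂ) * x) ^ p.1) * ((cf μ p.2 : ℂ) * ((q : ℂ) * x⁻¹) ^ p.2)) :=
    summable_mul_of_summable_norm (f := fun m : ℕ => (cf μ m : ℂ) * ((q : ℂ) * x) ^ m)
      (g := fun m : ℕ => (cf μ m : ℂ) * ((q : ℂ) * x⁻¹) ^ m)
      (summable_norm_cf hμ ((q : ℂ) * x)) (summable_norm_cf hμ ((q : ℂ) * x⁻¹))
  have e2 : Hc μ (q * x) * Hc μ (q * x⁻¹) = ∑' p : ℕ × ℕ,
      ((cf μ p.2 : ℂ) * ((q : ℂ) * x) ^ p.2) * ((cf μ p.1 : ℂ) * ((q : ℂ) * x⁻¹) ^ p.1) := by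
    rw [e1]
    exact ((Equiv.prodComm ℕ ℕ).tsum_eq (fun p : ℕ × ℕ =>
      ((cf μ p.1 : ℂ) * ((q : ℂ) * x) ^ p.1) *
        ((cf μ p.2 : ℂ) * ((q : ℂ) * x⁻¹) ^ p.2))).symm
  have s2 : Summable (fun p : ℕ × ℕ =>
      ((cf μ p.2 : ℂ) * ((q : ℂ) * x) ^ p.2) * ((cf μ p.1 : ℂ) * ((q : ℂ) * x⁻¹) ^ p.1)) :=
    (Equiv.prodComm ℕ ℕ).summable_iff.mpr s1
  have e3 : (∑' p : ℕ × ℕ, T μ q p (x + x⁻¹)) =
      Hc μ (q * x) * Hc μ (q * x⁻¹) + Hc μ (q * x) * Hc μ (q * x⁻¹) := by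
    conv_rhs => rw [e1]
    have : (∑' p : ℕ × ℕ, ((cf μ p.1 : ℂ) * ((q : ℂ) * x) ^ p.1) *
        ((cf μ p.2 : ℂ) * ((q : ℂ) * x⁻¹) ^ p.2)) = ∑' p : ℕ × ℕ,
      ((cf μ p.2 : ℂ) * ((q : ℂ) * x) ^ p.2) * ((cf μ p.1 : ℂ) * ((q : ℂ) * x⁻¹) ^ p.1) := by
      rw [← e1, e2]
    nth_rw 2 [this]
    rw [← s1.tsum_add s2]
    refine tsum_congr fun p => ?_
    obtain ⟨m, n⟩ := p
    have hxx : x * x⁻¹ = 1 := mul_inv_cancel₀ hx
    unfold T
    rw [P_eval hx]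
    simp only
    have hcomb : x ^ (m - n + (n - m)) + x⁻¹ ^ (m - n + (n - m)) =
        x ^ m * x⁻¹ ^ n + x ^ n * x⁻¹ ^ m := by
      rcases le_total m n with h | h
      · obtain ⟨k, rfl⟩ := Nat.exists_eq_add_of_le h
        have e : m - (m + k) + (m + k - m) = k := by omega
        rw [e, pow_add, pow_add]
        have : x ^ m * x⁻¹ ^ m = 1 := by rw [← mul_pow, hxx, one_pow]
        linear_combination (-(x⁻¹ ^ k) - x ^ k) * this
      · obtain ⟨k, rfl⟩ := Nat.exists_eq_add_of_le h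
        have e : n + k - n + (n - (n + k)) = k := by omega
        rw [e, pow_add, pow_add]
        have : x ^ n * x⁻¹ ^ n = 1 := by rw [← mul_pow, hxx, one_pow]
        linear_combination (-(x⁻¹ ^ k) - x ^ k) * this
    rw [hcomb, mul_pow, mul_pow, mul_pow, mul_pow, pow_add]
    ring
  unfold W
  rw [e3]
  ring

end

end Pool.Agent.V1146.McKay
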