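import Pool.Agent.V1146.McKay.Zero

/-!
# Densities `x^α e^{-bx} I_μ(ax)^k` are never hyperbolically completely monotone
-/

namespace Pool.Agent.V1146.McKay

open Finset Filter Topology MeasureTheory Set
open scoped ContDiff

noncomputable section

/-- complete monotonicity on `(2,∞)` -/
def CMOn (F : ℝ → ℝ) : Prop :=
  ContDiffOn ℝ ∞ F (Ioi 2) ∧ ∀ n : ℕ, ∀ w : ℝ, 2 < w → 0 ≤ (-1) ^ n * iteratedDeriv n F w

/-- `f : (0,∞) → (0,∞)` is hyperbolically completely monotone: for every `u > 0` the product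
`f (u v) f (u / v)` is, as a function of `w = v + 1 / v`, completely monotone on `(2,∞)`. -/
def HCM (f : ℝ → ℝ) : Prop :=
  ∀ u : ℝ, 0 < u → ∃ F : ℝ → ℝ, CMOn F ∧
    ∀ v : ℝ, 0 < v → v ≠ 1 → f (u * v) * f (u / v) = F (v + 1 / v)

/-- the modified Bessel function of the first kind, for `x > 0` -/
def besselI (μ x : ℝ) : ℝ :=
  (x / 2) ^ μ * ∑' m : ℕ, (x / 2) ^ (2 * m) / ((m.factorial : ℝ) * Real.Gamma (m + μ + 1))

lemma besselI_eq (μ x : ℝ) : besselI μ x = (x / 2) ^ μ * Hr μ ((x / 2) ^ 2) := by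
  unfold besselI Hr cf
  congr 1
  refine tsum_congr fun m => ?_
  rw [← pow_mul]
  ring

lemma besselI_pos {μ x : ℝ} (hμ : -1 < μ) (hx : 0 < x) : 0 < besselI μ x := by
  rw [besselI_eq]
  exact mul_pos (Real.rpow_pos_of_pos (by positivity) _) (Hr_pos hμ (by positivity))

lemma exists_v {w : ℝ} (hw : 2 < w) : ∃ v : ℝ, 1 < v ∧ v + 1 / v = w := by
  have hd : 0 < w ^ 2 - 4 := by nlinarith
  have hs := Real.sq_sqrt hd.le
  have hs0 : 0 < √(w ^ 2 - 4) := Real.sqrt_pos.mpr hd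
  have hv1 : 1 < (w + √(w ^ 2 - 4)) / 2 := by linarith
  refine ⟨(w + √(w ^ 2 - 4)) / 2, hv1, ?_⟩
  have hv0 : 0 < (w + √(w ^ 2 - 4)) / 2 := by linarith
  have hv0' : 0 < w + √(w ^ 2 - 4) := by linarith
  field_simp
  nlinarith

theorem not_hcm {μ a b α c : ℝ} {k : ℕ} (hμ : -1 < μ) (ha : 0 < a) (hc : 0 < c) (hk : k ≠ 0) :
    ¬ HCM (fun x => c * (x ^ α * Real.exp (-b * x) * besselI μ (a * x) ^ k)) := by
  intro hH
  obtain ⟨q, hq, hq0⟩ := exists_zero hμ
  -- choose `u` with `(a u / 2)^2 = q`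
  set u : ℝ := 2 * √q / a with hu
  have hu0 : 0 < u := by positivity
  have huq : (a * u / 2) ^ 2 = q := by
    have : a * u / 2 = √q := by rw [hu]; field_simp
    rw [this, Real.sq_sqrt hq.le]
  obtain ⟨F, ⟨-, hF⟩, hFv⟩ := hH u hu0
  set C0 : ℝ := c ^ 2 * ((u ^ 2) ^ α * (q ^ μ) ^ k) with hC0
  have hC0pos : 0 < C0 := by positivity
  set E : ℂ → ℂ := fun w => (C0 : ℂ) * Complex.exp (-(b * u : ℝ) * w) *
    (W μ q (w ^ 2 - 2)) ^ k with hE
  have hEd : Differentiable ℂ E := by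
    have h1 := W_diff hμ hq.le
    have h2 : Differentiable ℂ (fun w : ℂ => W μ q (w ^ 2 - 2)) :=
      h1.comp (by fun_prop)
    simp only [hE]
    fun_prop
  have hprod : ∀ v : ℝ, 0 < v →
      besselI μ (a * (u * v)) * besselI μ (a * (u / v)) =
        q ^ μ * (Hr μ (q * v ^ 2) * Hr μ (q * (v ^ 2)⁻¹)) := by
    intro v hv
    rw [besselI_eq, besselI_eq]
    have e1 : (a * (u * v) / 2) ^ 2 = q * v ^ 2 := by rw [← huq]; ring
    have e2 : (a * (u / v) / 2) ^ 2 = q * (v ^ 2)⁻¹ := by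
      rw [← huq]; field_simp
    have e3 : (a * (u * v) / 2) ^ μ * (a * (u / v) / 2) ^ μ = q ^ μ := by
      rw [← Real.mul_rpow (by positivity) (by positivity)]
      congr 1
      rw [← huq]; field_simp
    rw [e1, e2, ← e3]
    ring
  have hval : ∀ v : ℝ, 0 < v → v ≠ 1 → ((F (v + 1 / v) : ℝ) : ℂ) = E ((v + 1 / v : ℝ) : ℂ) := by
    intro v hv hv1
    rw [← hFv v hv hv1]
    have e1 : c * ((u * v) ^ α * Real.exp (-b * (u * v)) * besselI μ (a * (u * v)) ^ k) *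
        (c * ((u / v) ^ α * Real.exp (-b * (u / v)) * besselI μ (a * (u / v)) ^ k)) =
        C0 * Real.exp (-(b * u) * (v + 1 / v)) *
          (Hr μ (q * v ^ 2) * Hr μ (q * (v ^ 2)⁻¹)) ^ k := by
      have f1 : (u * v) ^ α * (u / v) ^ α = (u ^ 2) ^ α := by
        rw [← Real.mul_rpow (by positivity) (by positivity)]
        congr 1; field_simp
      have f2 : Real.exp (-b * (u * v)) * Real.exp (-b * (u / v)) =
          Real.exp (-(b * u) * (v + 1 / v)) := by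
        rw [← Real.exp_add]; congr 1; field_simp; ring
      have f3 : besselI μ (a * (u * v)) ^ k * besselI μ (a * (u / v)) ^ k =
          (q ^ μ) ^ k * (Hr μ (q * v ^ 2) * Hr μ (q * (v ^ 2)⁻¹)) ^ k := by
        rw [← mul_pow, hprod v hv, mul_pow]
      rw [hC0, ← f1, ← f2]
      linear_combination (c ^ 2 * ((u * v) ^ α * (u / v) ^ α) *
        (Real.exp (-b * (u * v)) * Real.exp (-b * (u / v)))) * f3
    rw [e1]
    simp only [hE]
    have hv2 : ((v : ℂ) ^ 2) ≠ 0 := by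
      have : (v : ℂ) ≠ 0 := by exact_mod_cast hv.ne'
      positivity
    have e2 : ((v + 1 / v : ℝ) : ℂ) ^ 2 - 2 = (v : ℂ) ^ 2 + ((v : ℂ) ^ 2)⁻¹ := by
      have : (v : ℂ) ≠ 0 := by exact_mod_cast hv.ne'
      push_cast
      field_simp
      ring
    rw [e2, W_eval hμ hq.le hv2]
    push_cast
    rw [Hr_cast, Hr_cast]
    push_cast
    ring
  have hEF : ∀ w : ℝ, 2 < w → ((F w : ℝ) : ℂ) = E w := by
    intro w hw
    obtain ⟨v, hv1, hvw⟩ := exists_v hw
    have hv0 : 0 < v := by linarith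
    have := hval v hv0 hv1.ne'
    rwa [hvw] at this
  have h3 : 0 < F 3 := by
    obtain ⟨v, hv1, hvw⟩ := exists_v (show (2 : ℝ) < 3 by norm_num)
    have hv0 : 0 < v := by linarith
    rw [← hvw, ← hFv v hv0 hv1.ne']
    have b1 := besselI_pos hμ (show 0 < a * (u * v) by positivity)
    have b2 := besselI_pos hμ (show 0 < a * (u / v) by positivity)
    positivity
  have hfin := entire_pos hEd hEF hF h3
  have hE0 : E 0 = 0 := by
    simp only [hE]
    have e : (0 : ℂ) ^ 2 - 2 = (-1) + (-1)⁻¹ := by norm_num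
    rw [e, W_eval hμ hq.le (by norm_num)]
    have e1 : (q : ℂ) * (-1) = ((-q : ℝ) : ℂ) := by push_cast; ring
    rw [e1, ← Hr_cast, hq0]
    simp [hk]
  rw [hE0] at hfin
  simp at hfin

end

end Pool.Agent.V1146.McKay
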