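import Pool.Agent.V1146.McKay.Basic

/-!
# `J_μ` has a positive zero, and entire extensions of completely monotone functions
-/

namespace Pool.Agent.V1146.McKay

open Finset Filter Topology MeasureTheory Set

noncomputable section

lemma laplace_Hr {μ : ℝ} (hμ : -1 < μ) {s : ℝ} (hs : 0 < s) :
    IntegrableOn (fun x : ℝ => Hr μ (-x) * x ^ μ * Real.exp (-(s * x))) (Ioi 0) ∧
    ∫ x in Ioi (0 : ℝ), Hr μ (-x) * x ^ μ * Real.exp (-(s * x)) =
      (1 / s) ^ (μ + 1) * Real.exp (-(1 / s)) := by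
  set F : ℕ → ℝ → ℝ := fun m x =>
    ((-1) ^ m * cf μ m) * (x ^ (((m : ℝ) + μ + 1) - 1) * Real.exp (-(s * x))) with hF
  have hm1 : ∀ m : ℕ, (0 : ℝ) < (m : ℝ) + μ + 1 := fun m => by
    have : (0 : ℝ) ≤ m := m.cast_nonneg
    linarith
  have hint : ∀ m : ℕ, ∫ x in Ioi (0 : ℝ), x ^ (((m : ℝ) + μ + 1) - 1) * Real.exp (-(s * x)) =
      (1 / s) ^ ((m : ℝ) + μ + 1) * Real.Gamma ((m : ℝ) + μ + 1) := fun m =>
    Real.integral_rpow_mul_exp_neg_mul_Ioi (hm1 m) hs
  have hint0 : ∀ m : ℕ, IntegrableOn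
      (fun x : ℝ => x ^ (((m : ℝ) + μ + 1) - 1) * Real.exp (-(s * x))) (Ioi 0) := by
    intro m
    by_contra hcon
    have h0 := integral_undef hcon
    rw [hint m] at h0
    have : 0 < (1 / s) ^ ((m : ℝ) + μ + 1) * Real.Gamma ((m : ℝ) + μ + 1) :=
      mul_pos (Real.rpow_pos_of_pos (by positivity) _) (Real.Gamma_pos_of_pos (hm1 m))
    linarith
  have hFint : ∀ m, Integrable (F m) (volume.restrict (Ioi 0)) := fun m =>
    (hint0 m).const_mul _
  have hval : ∀ m : ℕ, cf μ m * ((1 / s) ^ ((m : ℝ) + μ + 1) * Real.Gamma ((m : ℝ) + μ + 1)) =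
      (1 / s) ^ (μ + 1) * ((1 / s) ^ m / (m.factorial : ℝ)) := by
    intro m
    have hG := Real.Gamma_pos_of_pos (hm1 m)
    have e : (1 / s) ^ ((m : ℝ) + μ + 1) = (1 / s) ^ (μ + 1) * (1 / s) ^ m := by
      rw [← Real.rpow_natCast, ← Real.rpow_add (by positivity)]
      congr 1; ring
    rw [e]
    unfold cf
    have hf : (m.factorial : ℝ) ≠ 0 := by exact_mod_cast m.factorial_pos.ne'
    field_simp
  have hnorm : ∀ m : ℕ, ∫ x in Ioi (0 : ℝ), ‖F m x‖ =
      (1 / s) ^ (μ + 1) * ((1 / s) ^ m / (m.factorial : ℝ)) := by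
    intro m
    rw [← hval m, ← hint m, ← integral_const_mul]
    refine setIntegral_congr_fun measurableSet_Ioi fun x hx => ?_
    have hx' : (0 : ℝ) < x := hx
    simp only [hF, norm_mul, Real.norm_eq_abs, abs_pow, abs_neg, abs_one, one_pow, one_mul]
    rw [abs_of_pos (cf_pos hμ m), abs_of_pos (Real.rpow_pos_of_pos hx' _), Real.abs_exp]
  have hsum : Summable (fun m : ℕ => (1 / s) ^ (μ + 1) * ((1 / s) ^ m / (m.factorial : ℝ))) :=
    (Real.summable_pow_div_factorial (1 / s)).mul_left _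
  have hsum' : Summable (fun m => ∫ x in Ioi (0 : ℝ), ‖F m x‖) := by
    refine hsum.congr fun m => (hnorm m).symm
  have key := hasSum_integral_of_summable_integral_norm hFint hsum'
  have hpt : ∀ x ∈ Ioi (0 : ℝ), ∑' m, F m x = Hr μ (-x) * x ^ μ * Real.exp (-(s * x)) := by
    intro x hx
    have hx' : (0 : ℝ) < x := hx
    unfold Hr
    rw [mul_assoc, ← tsum_mul_right]
    refine tsum_congr fun m => ?_
    have e : x ^ (((m : ℝ) + μ + 1) - 1) = x ^ m * x ^ μ := by
      rw [← Real.rpow_natCast, ← Real.rpow_add hx']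
      congr 1; ring
    simp only [hF]
    rw [e, neg_pow]
    ring
  have h1 : ∫ x in Ioi (0 : ℝ), Hr μ (-x) * x ^ μ * Real.exp (-(s * x)) =
      (1 / s) ^ (μ + 1) * Real.exp (-(1 / s)) := by
    rw [← setIntegral_congr_fun measurableSet_Ioi hpt, ← key.tsum_eq]
    have : ∀ m : ℕ, ∫ x in Ioi (0 : ℝ), F m x =
        (1 / s) ^ (μ + 1) * ((-(1 / s)) ^ m / (m.factorial : ℝ)) := by
      intro m
      simp only [hF]
      rw [integral_const_mul, hint m, mul_assoc, hval m, neg_pow]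
      ring
    simp_rw [this]
    rw [tsum_mul_left]
    congr 1
    rw [Real.exp_eq_exp_ℝ, NormedSpace.exp_eq_tsum_div]
  refine ⟨?_, h1⟩
  by_contra hcon
  have h0 := integral_undef hcon
  rw [h1] at h0
  have : 0 < (1 / s) ^ (μ + 1) * Real.exp (-(1 / s)) :=
    mul_pos (Real.rpow_pos_of_pos (by positivity) _) (Real.exp_pos _)
  linarith

/-- the function `H_μ(-q)`, i.e. `J_μ` up to a power, has a positive zero -/
lemma exists_zero {μ : ℝ} (hμ : -1 < μ) : ∃ q : ℝ, 0 < q ∧ Hr μ (-q) = 0 := by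
  by_contra hcon
  push Not at hcon
  have hpos : ∀ x : ℝ, 0 < x → 0 < Hr μ (-x) := by
    intro x hx
    by_contra hx2
    push Not at hx2
    have hc : ContinuousOn (fun y : ℝ => Hr μ (-y)) (Icc 0 x) :=
      ((Hr_continuous hμ).comp continuous_neg).continuousOn
    have h0 : 0 < Hr μ (-0) := by simpa using Hr_pos hμ le_rfl
    have := intermediate_value_Icc' hx.le hc
    obtain ⟨y, hy, hy2⟩ := this (show (0 : ℝ) ∈ Icc (Hr μ (-x)) (Hr μ (-0)) from ⟨hx2, h0.le⟩)
    have hy2' : Hr μ (-y) = 0 := hy2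
    rcases hy.1.eq_or_lt with h | h
    · rw [← h] at hy2'; linarith
    · exact hcon y h hy2'
  have hmono : ∀ t : ℝ, 1 ≤ t → Real.exp (-1) ≤ t ^ (μ + 1) * Real.exp (-(1 : ℝ) * t) := by
    intro t ht
    have ht0 : 0 < t := by linarith
    obtain ⟨i1, e1⟩ := laplace_Hr hμ (one_pos)
    obtain ⟨i2, e2⟩ := laplace_Hr hμ (s := 1 / t) (by positivity)
    have hle : ∫ x in Ioi (0 : ℝ), Hr μ (-x) * x ^ μ * Real.exp (-(1 * x)) ≤
        ∫ x in Ioi (0 : ℝ), Hr μ (-x) * x ^ μ * Real.exp (-((1 / t) * x)) := by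
      refine setIntegral_mono_on i1 i2 measurableSet_Ioi fun x hx => ?_
      have hx' : (0 : ℝ) < x := hx
      have h1 : 0 < Hr μ (-x) * x ^ μ := mul_pos (hpos x hx') (Real.rpow_pos_of_pos hx' _)
      refine mul_le_mul_of_nonneg_left ?_ h1.le
      apply Real.exp_le_exp.mpr
      have : 1 / t ≤ 1 := by rw [div_le_one ht0]; exact ht
      nlinarith
    rw [e1, e2] at hle
    have a1 : (1 / (1 : ℝ)) ^ (μ + 1) * Real.exp (-(1 / 1)) = Real.exp (-1) := by
      norm_num
    have a2 : (1 / (1 / t)) = t := by field_simp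
    rw [a1, a2] at hle
    simpa using hle
  have hlim := tendsto_rpow_mul_exp_neg_mul_atTop_nhds_zero (μ + 1) 1 one_pos
  have : Real.exp (-1) ≤ 0 := by
    refine ge_of_tendsto hlim ?_
    filter_upwards [eventually_ge_atTop 1] with t ht using hmono t ht
  linarith [Real.exp_pos (-1)]

/-- real and complex iterated derivatives agree -/
lemma iter_cast {F : ℝ → ℝ} {E : ℂ → ℂ} (hE : Differentiable ℂ E)
    (hEF : ∀ w : ℝ, 2 < w → ((F w : ℝ) : ℂ) = E w) :
    ∀ n : ℕ, ∀ w : ℝ, 2 < w → ((iteratedDeriv n F w : ℝ) : ℂ) = iteratedDeriv n E w := by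
  intro n
  induction n with
  | zero => intro w hw; simpa using hEF w hw
  | succ n ih =>
    intro w hw
    rw [iteratedDeriv_succ, iteratedDeriv_succ]
    have hd : HasDerivAt (iteratedDeriv n E) (deriv (iteratedDeriv n E) w) (w : ℂ) := by
      have h1 : Differentiable ℂ (iteratedDeriv n E) :=
        (hE.contDiff (n := ⊤)).differentiable_iteratedDeriv n (by exact_mod_cast WithTop.coe_lt_top _)
      exact (h1 w).hasDerivAt
    have hev : ∀ᶠ y : ℝ in 𝓝 w, 2 < y := eventually_gt_nhds hw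
    have h1 := hd.real_of_complex
    have h1' : HasDerivAt (iteratedDeriv n F) (deriv (iteratedDeriv n E) w).re w := by
      refine h1.congr_of_eventuallyEq ?_
      filter_upwards [hev] with y hy
      rw [← ih y hy, Complex.ofReal_re]
    have h2 := hd.comp_ofReal
    have h3 := h1'.ofReal_comp
    have h4 : HasDerivAt (fun y : ℝ => ((iteratedDeriv n F y : ℝ) : ℂ))
        (deriv (iteratedDeriv n E) w) w := by
      refine h2.congr_of_eventuallyEq ?_
      filter_upwards [hev] with y hy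
      exact ih y hy
    rw [h1'.deriv]
    exact (h4.unique h3).symm

/-- An entire function which is completely monotone on `(2,∞)` is positive at `0`. -/
lemma entire_pos {F : ℝ → ℝ} {E : ℂ → ℂ} (hE : Differentiable ℂ E)
    (hEF : ∀ w : ℝ, 2 < w → ((F w : ℝ) : ℂ) = E w)
    (hF : ∀ n : ℕ, ∀ w : ℝ, 2 < w → 0 ≤ (-1) ^ n * iteratedDeriv n F w) (h3 : 0 < F 3) :
    0 < (E 0).re := by
  have hs := Complex.hasSum_taylorSeries_of_entire hE 3 0
  have hs2 := hs.mapL Complex.reCLM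
  have hterm : ∀ n : ℕ, Complex.reCLM
      ((n.factorial : ℂ)⁻¹ • ((0 : ℂ) - 3) ^ n • iteratedDeriv n E 3) =
      (n.factorial : ℝ)⁻¹ * 3 ^ n * ((-1) ^ n * iteratedDeriv n F 3) := by
    intro n
    have := iter_cast hE hEF n 3 (by norm_num)
    have h3' : ((3 : ℝ) : ℂ) = 3 := by norm_num
    rw [h3'] at this
    rw [← this]
    have e : (n.factorial : ℂ)⁻¹ • ((0 : ℂ) - 3) ^ n • ((iteratedDeriv n F 3 : ℝ) : ℂ) =
        (((n.factorial : ℝ)⁻¹ * 3 ^ n * ((-1) ^ n * iteratedDeriv n F 3) : ℝ) : ℂ) := by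
      rw [zero_sub, neg_pow]
      simp only [smul_eq_mul]
      push_cast
      ring
    rw [e]
    exact Complex.ofReal_re _
  have hnn : ∀ n : ℕ, 0 ≤ (n.factorial : ℝ)⁻¹ * 3 ^ n * ((-1) ^ n * iteratedDeriv n F 3) := by
    intro n
    have := hF n 3 (by norm_num)
    positivity
  have hs3 : HasSum (fun n : ℕ => (n.factorial : ℝ)⁻¹ * 3 ^ n *
      ((-1) ^ n * iteratedDeriv n F 3)) (Complex.reCLM (E 0)) := by
    simpa only [hterm] using hs2
  have := le_hasSum hs3 0 (fun n _ => hnn n)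
  simp only [Nat.factorial_zero, Nat.cast_one, inv_one, pow_zero, one_mul, iteratedDeriv_zero,
    Complex.reCLM_apply] at this
  linarith

end

end Pool.Agent.V1146.McKay
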